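import Pool.Agent.H871_GP.General

namespace Pool.Agent.Results.MP_474ff4_lc.GoodPairInP

open Pool.Agent.NPC Pool.Agent.H871.GP

/-- The problem whether a digraph of independence number two has an out-branching and an
in-branching, with roots that are not prescribed, which are arc-disjoint is in `P`. -/
theorem result : InPP (fun G : List ℕ × List (ℕ × ℕ) =>
    AlphaTwo G ∧ ∃ s t X Y, GoodPair G s t X Y) :=
  inPP_goodPair

end Pool.Agent.Results.MP_474ff4_lc.GoodPairInP
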